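import Pool.Agent.helper52.LD.T2
import Pool.Agent.helper30.LD.T1

/-!
Module T3 of the project LD (MP_4467b5_nt): Turan's second main theorem.
-/

set_option autoImplicit false

open Complex Metric

namespace Pool.Agent.helper6.LD

/-- T3: Turan's second main theorem for positive weights -/
theorem turan_second {ι : Type*} (S : Finset ι) (b : ι → ℝ) (hb : ∀ i ∈ S, 1 ≤ b i) (w : ι → ℂ)
    (m : ℕ) (hm : 1 ≤ m) {i₀ : ι} (hi₀ : i₀ ∈ S) (hmax : ∀ i ∈ S, ‖w i‖ ≤ ‖w i₀‖) :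
    ∃ k : ℕ, m + 1 ≤ k ∧ k ≤ m + S.card ∧
      (S.card : ℝ)⁻¹ * ((S.card : ℝ) / (4 * Real.exp 2 * (m + S.card))) ^ S.card * ‖w i₀‖ ^ k ≤
        ‖∑ i ∈ S, (b i : ℂ) * w i ^ k‖ := by
  classical
  have hcard : 1 ≤ S.card := Finset.card_pos.2 ⟨i₀, hi₀⟩
  by_cases hw0 : ‖w i₀‖ = 0
  · refine ⟨m + 1, le_rfl, by omega, ?_⟩
    rw [hw0, zero_pow (Nat.succ_ne_zero m), mul_zero]
    exact norm_nonneg _
  have hW : 0 < ‖w i₀‖ := lt_of_le_of_ne (norm_nonneg _) (Ne.symm hw0)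
  set W : ℝ := ‖w i₀‖ with hWdef
  set n : ℕ := S.card with hn
  have hn0 : (0 : ℝ) < n := by exact_mod_cast hcard
  have hm0 : (0 : ℝ) < m := by exact_mod_cast hm
  have hmn : (0 : ℝ) < m + n := by positivity
  set v : ι → ℂ := fun i => w i / (W : ℂ) with hv
  have hvn : ∀ i, ‖v i‖ = ‖w i‖ / W := by
    intro i
    simp only [hv, norm_div, Complex.norm_real, Real.norm_eq_abs, abs_of_pos hW]
  have hv1 : ∀ i ∈ S, ‖v i‖ ≤ 1 := by
    intro i hi
    rw [hvn, div_le_one hW]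
    exact hmax i hi
  have hv0 : ‖v i₀‖ = 1 := by
    rw [hvn]
    exact div_self hW.ne'
  have ha : (m : ℝ) / (m + n) < 1 := by
    rw [div_lt_one hmn]
    linarith
  obtain ⟨r, har, hr1, hprod⟩ := exists_radius S (fun i => ‖v i‖) ha
  have h1a : 1 - (m : ℝ) / (m + n) = n / (m + n) := by
    field_simp
    ring
  rw [h1a] at hprod
  have hr : 0 < r := lt_of_lt_of_le (by positivity) har
  have hP0 : 0 < ∏ i ∈ S, |r - ‖v i‖| := by
    refine lt_of_lt_of_le ?_ hprod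
    positivity
  have hne : ∀ i ∈ S, ‖v i‖ ≠ r := by
    intro i hi h
    have h1 : ∏ i ∈ S, |r - ‖v i‖| = 0 := Finset.prod_eq_zero hi (by rw [h, sub_self, abs_zero])
    exact hP0.ne' h1
  have hr1' : r < 1 := by
    have := hne i₀ hi₀
    rw [hv0] at this
    exact lt_of_le_of_ne hr1 this.symm
  obtain ⟨c, hc1, hc2⟩ := separating S v hv1 hr hr1 hne m
  rw [← hn] at hc1 hc2
  -- the power sums
  set s : ℕ → ℂ := fun j => ∑ i ∈ S, (b i : ℂ) * v i ^ (m + 1 + j) with hs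
  have hsum : ∑ j ∈ Finset.range n, c j * s j =
      ((∑ i ∈ S, if r < ‖v i‖ then b i else 0 : ℝ) : ℂ) := by
    have h1 : ∑ j ∈ Finset.range n, c j * s j =
        ∑ i ∈ S, (b i : ℂ) * ∑ j ∈ Finset.range n, c j * v i ^ (m + 1 + j) := by
      simp only [hs, Finset.mul_sum]
      rw [Finset.sum_comm]
      refine Finset.sum_congr rfl fun i _ => Finset.sum_congr rfl fun j _ => ?_
      ring
    rw [h1, Complex.ofReal_sum]
    refine Finset.sum_congr rfl fun i hi => ?_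
    rw [hc1 i hi]
    split_ifs
    · rw [mul_one]
    · rw [mul_zero, Complex.ofReal_zero]
  have hone : (1 : ℝ) ≤ ∑ i ∈ S, if r < ‖v i‖ then b i else 0 := by
    have h1 : (if r < ‖v i₀‖ then b i₀ else 0) ≤ ∑ i ∈ S, if r < ‖v i‖ then b i else 0 := by
      refine Finset.single_le_sum (f := fun i => if r < ‖v i‖ then b i else 0) (fun i hi => ?_) hi₀
      have := hb i hi
      show (0 : ℝ) ≤ if r < ‖v i‖ then b i else 0
      split_ifs <;> linarith
    rw [hv0, if_pos hr1'] at h1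
    exact (hb i₀ hi₀).trans h1
  have hrange : (Finset.range n).Nonempty := ⟨0, Finset.mem_range.2 hcard⟩
  obtain ⟨j, hj, hjmax⟩ := Finset.exists_max_image (Finset.range n) (fun j => ‖s j‖) hrange
  have hbound : (1 : ℝ) ≤ (∑ j ∈ Finset.range n, ‖c j‖) * ‖s j‖ := by
    calc (1 : ℝ) ≤ ‖∑ j ∈ Finset.range n, c j * s j‖ := by
          rw [hsum, Complex.norm_real, Real.norm_eq_abs]
          exact hone.trans (le_abs_self _)
      _ ≤ ∑ j ∈ Finset.range n, ‖c j‖ * ‖s j‖ := by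
          refine (norm_sum_le _ _).trans (le_of_eq ?_)
          exact Finset.sum_congr rfl fun j _ => norm_mul _ _
      _ ≤ ∑ i ∈ Finset.range n, ‖c i‖ * ‖s j‖ :=
          Finset.sum_le_sum fun i hi => mul_le_mul_of_nonneg_left (hjmax i hi) (norm_nonneg _)
      _ = (∑ j ∈ Finset.range n, ‖c j‖) * ‖s j‖ := by rw [Finset.sum_mul]
  -- numerical bound
  have hrm : (r ^ m)⁻¹ ≤ Real.exp n := by
    have h1 : r⁻¹ ≤ Real.exp ((n : ℝ) / m) := by
      have h2 : r⁻¹ ≤ ((m : ℝ) / (m + n))⁻¹ := inv_anti₀ (by positivity) har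
      have h3 : ((m : ℝ) / (m + n))⁻¹ = n / m + 1 := by
        field_simp
        ring
      rw [h3] at h2
      exact h2.trans (Real.add_one_le_exp _)
    calc (r ^ m)⁻¹ = (r⁻¹) ^ m := (inv_pow r m).symm
      _ ≤ (Real.exp ((n : ℝ) / m)) ^ m := pow_le_pow_left₀ (by positivity) h1 m
      _ = Real.exp n := by
          rw [← Real.exp_nat_mul]
          congr 1
          field_simp
  have hC : (∑ j ∈ Finset.range n, ‖c j‖) ≤
      ((n : ℝ)⁻¹ * ((n : ℝ) / (4 * Real.exp 2 * (m + n))) ^ n)⁻¹ := by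
    have hPinv : (∏ i ∈ S, |r - ‖v i‖|)⁻¹ ≤
        (((n : ℝ) / (m + n) / (2 * Real.exp 1)) ^ n)⁻¹ :=
      inv_anti₀ (by positivity) hprod
    refine hc2.trans ?_
    calc (n : ℝ) * 2 ^ n * (r ^ m)⁻¹ * (∏ i ∈ S, |r - ‖v i‖|)⁻¹
        ≤ (n : ℝ) * 2 ^ n * Real.exp n * (((n : ℝ) / (m + n) / (2 * Real.exp 1)) ^ n)⁻¹ := by
          gcongr
      _ = ((n : ℝ)⁻¹ * ((n : ℝ) / (4 * Real.exp 2 * (m + n))) ^ n)⁻¹ := by
          have he : Real.exp n = (Real.exp 1) ^ n := by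
            rw [← Real.exp_nat_mul, mul_one]
          have he2 : Real.exp 2 = Real.exp 1 * Real.exp 1 := by
            rw [← Real.exp_add]
            norm_num
          rw [he, he2, mul_inv, inv_inv, ← inv_pow, ← inv_pow, mul_assoc, mul_assoc, ← mul_pow,
            ← mul_pow]
          congr 2
          have := Real.exp_pos 1
          field_simp
          ring
  set δ : ℝ := (n : ℝ)⁻¹ * ((n : ℝ) / (4 * Real.exp 2 * (m + n))) ^ n with hδ
  have hδ0 : 0 < δ := by positivity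
  have hsj : δ ≤ ‖s j‖ := by
    have h1 : (1 : ℝ) ≤ δ⁻¹ * ‖s j‖ :=
      hbound.trans (mul_le_mul_of_nonneg_right hC (norm_nonneg _))
    calc δ = δ * 1 := (mul_one δ).symm
      _ ≤ δ * (δ⁻¹ * ‖s j‖) := mul_le_mul_of_nonneg_left h1 hδ0.le
      _ = ‖s j‖ := by
          rw [← mul_assoc, mul_inv_cancel₀ hδ0.ne', one_mul]
  have hjn : j < n := Finset.mem_range.1 hj
  refine ⟨m + 1 + j, by omega, by omega, ?_⟩
  have hfin : ∑ i ∈ S, (b i : ℂ) * w i ^ (m + 1 + j) = (W : ℂ) ^ (m + 1 + j) * s j := by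
    simp only [hs, Finset.mul_sum]
    refine Finset.sum_congr rfl fun i _ => ?_
    have hWc : (W : ℂ) ≠ 0 := by exact_mod_cast hW.ne'
    simp only [hv, div_pow]
    field_simp
  rw [hfin, norm_mul, norm_pow, Complex.norm_real, Real.norm_eq_abs, abs_of_pos hW, mul_comm]
  exact mul_le_mul_of_nonneg_left hsj (by positivity)

end Pool.Agent.helper6.LD
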