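import Pool.Agent.helper6.LD.Defs

/-!
Module T2 of the project LD (MP_4467b5_nt): the separating polynomial of Turan's second main
theorem, by a contour integral.
-/

set_option autoImplicit false

open Complex Metric

namespace Pool.Agent.helper6.LD

/-- The coefficients of a monic polynomial with all roots in the unit disc. -/
theorem helper52_coeff_sum {ι : Type*} (S : Finset ι) (w : ι → ℂ) (hw : ∀ i ∈ S, ‖w i‖ ≤ 1) :
    ∑ l ∈ Finset.range (S.card + 1),
      ‖(∏ i ∈ S, (Polynomial.X - Polynomial.C (w i))).coeff l‖ ≤ 2 ^ S.card := by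
  classical
  set P : Polynomial ℂ := ∏ i ∈ S, (Polynomial.X - Polynomial.C (w i)) with hP
  have hmon : P.Monic := Polynomial.monic_prod_X_sub_C w S
  have hdeg : P.natDegree = S.card := Polynomial.natDegree_finsetProd_X_sub_C_eq_card S w
  have hmap : P.map (RingHom.id ℂ) = P := Polynomial.map_id
  have hroots : ∀ z ∈ (P.map (RingHom.id ℂ)).roots, ‖z‖ ≤ 1 := by
    intro z hz
    rw [hmap] at hz
    have h1 : P.eval z = 0 := (Polynomial.mem_roots hmon.ne_zero).1 hz
    rw [hP, Polynomial.eval_prod, Finset.prod_eq_zero_iff] at h1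
    obtain ⟨i, hi, h2⟩ := h1
    have h3 : z = w i := by
      simpa [sub_eq_zero] using h2
    rw [h3]
    exact hw i hi
  have hc : ∀ l, ‖P.coeff l‖ ≤ (S.card.choose l : ℝ) := by
    intro l
    have h := Polynomial.coeff_le_of_roots_le (f := RingHom.id ℂ) (B := 1) l hmon
      (IsAlgClosed.splits _) hroots
    rw [hmap, hdeg, one_pow, one_mul] at h
    exact h
  calc ∑ l ∈ Finset.range (S.card + 1), ‖P.coeff l‖
      ≤ ∑ l ∈ Finset.range (S.card + 1), (S.card.choose l : ℝ) :=
        Finset.sum_le_sum fun l _ => hc l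
    _ = 2 ^ S.card := by exact_mod_cast Nat.sum_range_choose S.card

/-- The basic contour integrals. -/
theorem helper52_int_aux {r : ℝ} (hr : 0 < r) {z : ℂ} (hz0 : z ≠ 0) (hz : ‖z‖ ≠ r) (m : ℕ) :
    (∮ w in C(0, r), (w ^ (m + 1))⁻¹ * (w - z)⁻¹) =
      z⁻¹ * ((∮ w in C(0, r), (w ^ m)⁻¹ * (w - z)⁻¹) - ∮ w in C(0, r), (w ^ (m + 1))⁻¹) := by
  have hne : ∀ w ∈ sphere (0 : ℂ) r, w ≠ 0 := by
    intro w hw h
    rw [h] at hw
    simp at hw
    exact hr.ne hw
  have hnz : ∀ w ∈ sphere (0 : ℂ) r, w - z ≠ 0 := by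
    intro w hw h
    rw [sub_eq_zero.1 h] at hw
    simp at hw
    exact hz hw
  have hc1 : ContinuousOn (fun w : ℂ => (w ^ m)⁻¹ * (w - z)⁻¹) (sphere 0 r) :=
    ContinuousOn.mul
      (ContinuousOn.inv₀ (continuous_pow m).continuousOn fun w hw => pow_ne_zero _ (hne w hw))
      (ContinuousOn.inv₀ (continuous_id.sub continuous_const).continuousOn fun w hw => hnz w hw)
  have hc2 : ContinuousOn (fun w : ℂ => (w ^ (m + 1))⁻¹) (sphere 0 r) :=
    ContinuousOn.inv₀ (continuous_pow (m + 1)).continuousOn fun w hw => pow_ne_zero _ (hne w hw)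
  rw [← circleIntegral.integral_sub (hc1.circleIntegrable hr.le) (hc2.circleIntegrable hr.le),
    ← circleIntegral.integral_const_mul]
  refine circleIntegral.integral_congr hr.le fun w hw => ?_
  have h1 := hne w hw
  have h2 := hnz w hw
  field_simp
  ring

theorem helper52_int_pow {r : ℝ} (hr : 0 < r) (m : ℕ) :
    (∮ w in C(0, r), (w ^ (m + 2))⁻¹) = 0 := by
  have h := circleIntegral.integral_sub_zpow_of_ne (n := -((m : ℤ) + 2)) (by omega) 0 0 r
  refine Eq.trans ?_ h
  apply circleIntegral.integral_congr hr.le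
  intro w _
  simp only [sub_zero]
  rw [zpow_neg]
  norm_cast

theorem helper52_int_one {r : ℝ} (hr : 0 < r) :
    (∮ w in C(0, r), (w ^ 1)⁻¹) = 2 * Real.pi * I := by
  have h := circleIntegral.integral_sub_center_inv 0 hr.ne'
  simpa using h

theorem helper52_int {r : ℝ} (hr : 0 < r) {z : ℂ} (hz : ‖z‖ ≠ r) (m : ℕ) :
    (∮ w in C(0, r), (w ^ (m + 1))⁻¹ * (w - z)⁻¹) =
      if r < ‖z‖ then -(2 * Real.pi * I) * (z ^ (m + 1))⁻¹ else 0 := by
  by_cases hz0 : z = 0
  · subst hz0
    rw [if_neg (by simpa using hr.le)]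
    refine Eq.trans ?_ (helper52_int_pow hr m)
    apply circleIntegral.integral_congr hr.le
    intro w _
    simp only [sub_zero]
    rw [← mul_inv, ← pow_succ]
  · induction m with
    | zero =>
      rw [helper52_int_aux hr hz0 hz 0, zero_add, helper52_int_one hr]
      by_cases h : r < ‖z‖
      · rw [if_pos h]
        have h0 : (∮ w in C(0, r), (w ^ 0)⁻¹ * (w - z)⁻¹) = 0 := by
          have hne : ∀ w ∈ closedBall (0 : ℂ) r, w - z ≠ 0 := by
            intro w hw h'
            rw [sub_eq_zero.1 h', mem_closedBall_zero_iff] at hw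
            exact absurd hw (not_le.2 h)
          refine Complex.circleIntegral_eq_zero_of_differentiable_on_off_countable hr.le
            Set.countable_empty ?_ ?_
          · refine ContinuousOn.mul ?_ ?_
            · simp only [pow_zero]
              exact continuousOn_const
            · exact ContinuousOn.inv₀ (continuous_id.sub continuous_const).continuousOn hne
          · intro w hw
            have hw' : w ∈ closedBall (0 : ℂ) r := ball_subset_closedBall hw.1
            simp only [pow_zero]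
            exact (differentiableAt_const _).mul
              ((differentiableAt_id.sub (differentiableAt_const _)).inv (hne w hw'))
        rw [h0]
        ring
      · rw [if_neg h]
        have h1 : z ∈ ball (0 : ℂ) r := by
          rw [mem_ball_zero_iff]
          exact lt_of_le_of_ne (not_lt.1 h) hz
        have h0 : (∮ w in C(0, r), (w ^ 0)⁻¹ * (w - z)⁻¹) = 2 * Real.pi * I := by
          simpa using circleIntegral.integral_sub_inv_of_mem_ball h1
        rw [h0]
        ring
    | succ m ih =>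
      rw [helper52_int_aux hr hz0 hz (m + 1), ih, helper52_int_pow hr m]
      by_cases h : r < ‖z‖
      · rw [if_pos h, if_pos h, sub_zero, pow_succ z (m + 1), mul_inv]
        ring
      · rw [if_neg h, if_neg h]
        ring

/-- T2: the separating polynomial `∑_{j<n} c j z^(m+1+j)` -/
theorem separating {ι : Type*} (S : Finset ι) (w : ι → ℂ) (hw : ∀ i ∈ S, ‖w i‖ ≤ 1) {r : ℝ}
    (hr : 0 < r) (hr1 : r ≤ 1) (hne : ∀ i ∈ S, ‖w i‖ ≠ r) (m : ℕ) :
    ∃ c : ℕ → ℂ, (∀ i ∈ S, ∑ j ∈ Finset.range S.card, c j * w i ^ (m + 1 + j) =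
        if r < ‖w i‖ then 1 else 0) ∧
      ∑ j ∈ Finset.range S.card, ‖c j‖ ≤
        S.card * 2 ^ S.card * (r ^ m)⁻¹ * (∏ i ∈ S, |r - ‖w i‖|)⁻¹ := by
  classical
  set n := S.card with hn
  set P : Polynomial ℂ := ∏ i ∈ S, (Polynomial.X - Polynomial.C (w i)) with hP
  have hdeg : P.natDegree = n := Polynomial.natDegree_finsetProd_X_sub_C_eq_card S w
  have hPeval : ∀ u : ℂ, P.eval u = ∏ i ∈ S, (u - w i) := by
    intro u
    rw [hP, Polynomial.eval_prod]
    simp
  -- the coefficients of the quotient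
  set q : ℕ → ℂ → ℂ := fun j u =>
    ∑ l ∈ Finset.range (n + 1), if j < l then P.coeff l * u ^ (l - 1 - j) else 0 with hq
  have hid : ∀ u z : ℂ, (∑ j ∈ Finset.range n, q j u * z ^ j) * (u - z) =
      P.eval u - P.eval z := by
    intro u z
    have h1 : ∑ j ∈ Finset.range n, q j u * z ^ j =
        ∑ l ∈ Finset.range (n + 1), P.coeff l *
          ∑ j ∈ Finset.range l, u ^ (l - 1 - j) * z ^ j := by
      simp only [hq, Finset.sum_mul]
      rw [Finset.sum_comm]
      refine Finset.sum_congr rfl fun l hl => ?_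
      have hl' : l ≤ n := Nat.lt_succ_iff.1 (Finset.mem_range.1 hl)
      rw [Finset.mul_sum]
      have h2 : Finset.range l = (Finset.range n).filter (fun j => j < l) := by
        ext j
        simp only [Finset.mem_range, Finset.mem_filter]
        omega
      rw [h2, Finset.sum_filter]
      refine Finset.sum_congr rfl fun j _ => ?_
      split_ifs with h
      · ring
      · ring
    rw [h1, Finset.sum_mul, Polynomial.eval_eq_sum_range, Polynomial.eval_eq_sum_range, hdeg,
      ← Finset.sum_sub_distrib]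
    refine Finset.sum_congr rfl fun l _ => ?_
    have h3 : (∑ j ∈ Finset.range l, u ^ (l - 1 - j) * z ^ j) * (u - z) = u ^ l - z ^ l := by
      have h4 := (Commute.all z u).geom_sum₂_mul l
      have h5 : ∑ j ∈ Finset.range l, u ^ (l - 1 - j) * z ^ j =
          ∑ j ∈ Finset.range l, z ^ j * u ^ (l - 1 - j) :=
        Finset.sum_congr rfl fun j _ => mul_comm _ _
      rw [h5]
      linear_combination -h4
    rw [mul_assoc, h3]
    ring
  have hsph : ∀ u ∈ sphere (0 : ℂ) r, ‖u‖ = r := by
    intro u hu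
    simpa using hu
  have hu0 : ∀ u ∈ sphere (0 : ℂ) r, u ≠ 0 := by
    intro u hu h
    have h1 := hsph u hu
    rw [h, norm_zero] at h1
    exact hr.ne h1
  have hui : ∀ u ∈ sphere (0 : ℂ) r, ∀ i ∈ S, u - w i ≠ 0 := by
    intro u hu i hi h
    have h1 := hsph u hu
    rw [sub_eq_zero.1 h] at h1
    exact hne i hi h1
  have hPu : ∀ u ∈ sphere (0 : ℂ) r, P.eval u ≠ 0 := by
    intro u hu
    rw [hPeval]
    exact Finset.prod_ne_zero_iff.2 fun i hi => hui u hu i hi
  have hqcont : ∀ j, Continuous (q j) := by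
    intro j
    simp only [hq]
    refine continuous_finsetSum _ fun l _ => ?_
    split_ifs
    · exact continuous_const.mul (continuous_pow _)
    · exact continuous_const
  have hcont : ∀ j, ContinuousOn (fun u : ℂ => (u ^ (m + 1))⁻¹ * (q j u / P.eval u))
      (sphere 0 r) := by
    intro j
    refine ContinuousOn.mul ?_ ?_
    · exact ContinuousOn.inv₀ (continuous_pow _).continuousOn fun u hu => pow_ne_zero _ (hu0 u hu)
    · exact ContinuousOn.div (hqcont j).continuousOn P.continuous.continuousOn hPu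
  have h2pi : (2 * Real.pi * I : ℂ) ≠ 0 := by
    simp [Real.pi_ne_zero]
  refine ⟨fun j => -((2 * Real.pi * I : ℂ)⁻¹ •
    ∮ u in C(0, r), (u ^ (m + 1))⁻¹ * (q j u / P.eval u)), ?_, ?_⟩
  · intro i hi
    have hPz : P.eval (w i) = 0 := by
      rw [hPeval]
      exact Finset.prod_eq_zero hi (sub_self _)
    have hint : ∑ j ∈ Finset.range n, (∮ u in C(0, r), (u ^ (m + 1))⁻¹ * (q j u / P.eval u)) *
        w i ^ j = ∮ u in C(0, r), (u ^ (m + 1))⁻¹ * (u - w i)⁻¹ := by
      have h1 : ∀ j ∈ Finset.range n,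
          (∮ u in C(0, r), (u ^ (m + 1))⁻¹ * (q j u / P.eval u)) * w i ^ j =
          ∮ u in C(0, r), w i ^ j * ((u ^ (m + 1))⁻¹ * (q j u / P.eval u)) := by
        intro j _
        rw [circleIntegral.integral_const_mul]
        ring
      rw [Finset.sum_congr rfl h1, ← circleIntegral.integral_fun_sum]
      · refine circleIntegral.integral_congr hr.le fun u hu => ?_
        have h2 := hid u (w i)
        rw [hPz, sub_zero] at h2
        have h3 := hui u hu i hi
        have h4 := hPu u hu
        have h5 : ∑ j ∈ Finset.range n, w i ^ j * ((u ^ (m + 1))⁻¹ * (q j u / P.eval u)) =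
            (u ^ (m + 1))⁻¹ * (P.eval u)⁻¹ * ∑ j ∈ Finset.range n, q j u * w i ^ j := by
          rw [Finset.mul_sum]
          refine Finset.sum_congr rfl fun j _ => ?_
          ring
        have h6 : ∑ j ∈ Finset.range n, q j u * w i ^ j = P.eval u * (u - w i)⁻¹ := by
          rw [eq_mul_inv_iff_mul_eq₀ h3, h2]
        rw [h5, h6]
        field_simp
      · intro j _
        exact ((continuousOn_const.mul (hcont j))).circleIntegrable hr.le
    have h7 : ∑ j ∈ Finset.range n, (-((2 * Real.pi * I : ℂ)⁻¹ •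
        ∮ u in C(0, r), (u ^ (m + 1))⁻¹ * (q j u / P.eval u))) * w i ^ (m + 1 + j) =
        -(2 * Real.pi * I : ℂ)⁻¹ * w i ^ (m + 1) *
        ∑ j ∈ Finset.range n, (∮ u in C(0, r), (u ^ (m + 1))⁻¹ * (q j u / P.eval u)) *
        w i ^ j := by
      rw [Finset.mul_sum]
      refine Finset.sum_congr rfl fun j _ => ?_
      rw [smul_eq_mul, pow_add]
      ring
    rw [h7, hint, helper52_int hr (hne i hi) m]
    by_cases h : r < ‖w i‖
    · rw [if_pos h, if_pos h]
      have h8 : w i ≠ 0 := by
        intro h0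
        rw [h0, norm_zero] at h
        exact absurd h (not_lt.2 hr.le)
      have h9 : w i ^ (m + 1) ≠ 0 := pow_ne_zero _ h8
      field_simp
    · rw [if_neg h, if_neg h, mul_zero]
  · have hL := helper52_coeff_sum S w hw
    rw [← hn, ← hP] at hL
    have hprod : ∀ u ∈ sphere (0 : ℂ) r, ∏ i ∈ S, |r - ‖w i‖| ≤ ‖P.eval u‖ := by
      intro u hu
      rw [hPeval, norm_prod]
      refine Finset.prod_le_prod (fun i _ => abs_nonneg _) fun i _ => ?_
      rw [← hsph u hu]
      exact abs_norm_sub_norm_le u (w i)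
    have hprod0 : 0 < ∏ i ∈ S, |r - ‖w i‖| :=
      Finset.prod_pos fun i hi => abs_pos.2 (sub_ne_zero.2 (hne i hi).symm)
    have hqb : ∀ j, ∀ u ∈ sphere (0 : ℂ) r, ‖q j u‖ ≤ 2 ^ n := by
      intro j u hu
      refine le_trans (norm_sum_le _ _) (le_trans (Finset.sum_le_sum fun l _ => ?_) hL)
      split_ifs
      · rw [norm_mul, norm_pow, hsph u hu]
        exact mul_le_of_le_one_right (norm_nonneg _) (pow_le_one₀ hr.le hr1)
      · rw [norm_zero]
        exact norm_nonneg _
    have hb : ∀ j, ‖-((2 * Real.pi * I : ℂ)⁻¹ •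
        ∮ u in C(0, r), (u ^ (m + 1))⁻¹ * (q j u / P.eval u))‖ ≤
        2 ^ n * (r ^ m)⁻¹ * (∏ i ∈ S, |r - ‖w i‖|)⁻¹ := by
      intro j
      rw [norm_neg]
      refine le_trans (circleIntegral.norm_two_pi_i_inv_smul_integral_le_of_norm_le_const hr.le
        (C := (r ^ (m + 1))⁻¹ * (2 ^ n * (∏ i ∈ S, |r - ‖w i‖|)⁻¹)) ?_) ?_
      · intro u hu
        rw [norm_mul, norm_inv, norm_pow, hsph u hu, norm_div, div_eq_mul_inv]
        have h1 : ‖P.eval u‖⁻¹ ≤ (∏ i ∈ S, |r - ‖w i‖|)⁻¹ :=
          inv_anti₀ hprod0 (hprod u hu)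
        have h2 := hqb j u hu
        gcongr
      · refine le_of_eq ?_
        rw [pow_succ]
        field_simp
    calc ∑ j ∈ Finset.range n, ‖-((2 * Real.pi * I : ℂ)⁻¹ •
        ∮ u in C(0, r), (u ^ (m + 1))⁻¹ * (q j u / P.eval u))‖
        ≤ ∑ _j ∈ Finset.range n, 2 ^ n * (r ^ m)⁻¹ * (∏ i ∈ S, |r - ‖w i‖|)⁻¹ :=
          Finset.sum_le_sum fun j _ => hb j
      _ = n * 2 ^ n * (r ^ m)⁻¹ * (∏ i ∈ S, |r - ‖w i‖|)⁻¹ := by
          rw [Finset.sum_const, Finset.card_range, nsmul_eq_mul]
          ring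

end Pool.Agent.helper6.LD
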